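import Mathlib

/-!
# Formal data of correspondences of all codimensions on finitely many varieties
-/

namespace SDCK

universe u v

/-- The data attached to finitely many smooth projective varieties `V i` of dimension `dim i`
over a field, among them the zero-dimensional ones:
`C` is the ring of correspondences of all codimensions, with rational coefficients, on their
disjoint union, and `star` the transposition; `CH i j c ⊆ C` is `CH^c(V i × V j)`, the
correspondences of codimension `c` from `V i` to `V j`, and `Δ i` the diagonal of `V i`;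
`a * b` is first `b`, then `a`.
`H` is the ring of endomorphisms, preserving the parity of the degree, of the sum of the cohomology
groups of the `V i`, `star` the adjoint for Poincaré duality, `R` the action on cohomology and
`π i k` the projector onto the cohomology of `V i` in degree `k`.
The last four axioms are facts on cycles of small codimension: there are no cycles of negative
codimension or of codimension greater than the dimension; cycles of codimension `0` are determined
by their classes; homologically trivial divisors on `V i × V j` are sums of divisors of the form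
`D × V j` and `V i × D'` with `D`, `D'` homologically trivial (product cycles are the
correspondences factoring through a zero-dimensional variety). -/
structure Cycles where
  ι : Type
  dim : ι → ℕ
  /-- all correspondences -/
  C : Type u
  ringC : Ring C
  algC : Algebra ℚ C
  starC : StarRing C
  /-- correspondences of codimension `c` from `V i` to `V j` -/
  CH : ι → ι → ℤ → Submodule ℚ C
  /-- diagonals -/
  Δ : ι → C
  Δ_mem : ∀ i, Δ i ∈ CH i i (dim i)
  Δ_mul : ∀ {i j : ι} {c : ℤ} {a : C}, a ∈ CH i j c → Δ j * a = a
  mul_Δ : ∀ {i j : ι} {c : ℤ} {a : C}, a ∈ CH i j c → a * Δ i = a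
  mul_mem : ∀ {i j k : ι} {r s : ℤ} {a b : C}, a ∈ CH j k r → b ∈ CH i j s →
    a * b ∈ CH i k (r + s - dim j)
  star_mem : ∀ {i j : ι} {c : ℤ} {a : C}, a ∈ CH i j c → star a ∈ CH j i c
  /-- endomorphisms of the cohomology -/
  H : Type v
  ringH : Ring H
  starH : StarRing H
  /-- the action on cohomology -/
  R : C →+* H
  R_star : ∀ a : C, R (star a) = star (R a)
  /-- the Künneth projectors -/
  π : (i : ι) → Fin (2 * dim i + 1) → H
  π_ortho : ∀ i, OrthogonalIdempotents (π i)
  π_sum : ∀ i, ∑ k, π i k = R (Δ i)
  π_star : ∀ i k, star (π i k) = π i k.rev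
  CH_neg : ∀ {i j : ι} {c : ℤ} {a : C}, c < 0 → a ∈ CH i j c → a = 0
  CH_top : ∀ {i j : ι} {c : ℤ} {a : C}, (dim i : ℤ) + dim j < c → a ∈ CH i j c → a = 0
  CH_zero : ∀ {i j : ι} {a : C}, a ∈ CH i j 0 → R a = 0 → a = 0
  CH_one : ∀ {i j : ι} {a : C}, a ∈ CH i j 1 → R a = 0 →
    a ∈ Submodule.span ℚ {z | ∃ o, dim o = 0 ∧
      ((∃ x ∈ CH o j 0, ∃ y ∈ CH i o 1, R y = 0 ∧ x * y = z) ∨
        ∃ x ∈ CH o j 1, ∃ y ∈ CH i o 0, R x = 0 ∧ x * y = z)}

attribute [instance] Cycles.ringC Cycles.algC Cycles.starC Cycles.ringH Cycles.starH

namespace Cycles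

variable (T : Cycles.{u, v})

/-- The lower degree `k < dim V x` as an element of `{0, …, 2 dim V x}`. -/
def low {x : T.ι} (k : Fin (T.dim x)) : Fin (2 * T.dim x + 1) := ⟨k, by omega⟩

/-- A Chow-Künneth decomposition of `V x`. -/
def IsCK (x : T.ι) (p : Fin (2 * T.dim x + 1) → T.C) : Prop :=
  (∀ k, p k ∈ T.CH x x (T.dim x)) ∧ OrthogonalIdempotents p ∧ ∑ k, p k = T.Δ x ∧
    ∀ k, T.R (p k) = T.π x k

/-- A self-dual Chow-Künneth decomposition of `V x`: the transpose of `p k` is `p (2d - k)`. -/
def IsSelfDualCK (x : T.ι) (p : Fin (2 * T.dim x + 1) → T.C) : Prop :=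
  T.IsCK x p ∧ ∀ k, star (p k) = p k.rev

/-- The correspondences of degree `0` of `V x` that factor through varieties of dimension at most
`w`: sums of `a * b` with `b : h(V x) → h(V j)` and `a : h(V j) → h(V x)` of degree `0`,
`dim V j ≤ w`. -/
def Through (x : T.ι) (w : ℕ) : Submodule ℚ T.C :=
  Submodule.span ℚ {z | ∃ j, T.dim j ≤ w ∧ ∃ a ∈ T.CH j x (T.dim j), ∃ b ∈ T.CH x j (T.dim x),
    a * b = z}

/-- The projector onto the cohomology of degree `k < dim V x` is the class of a correspondence
that is algebraic over `ℚ` (for instance idempotent) and factors through varieties of dimension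
at most `w`. -/
def HasLift (x : T.ι) (w : ℕ) (k : Fin (T.dim x)) : Prop :=
  ∃ c ∈ T.Through x w, IsAlgebraic ℚ c ∧ T.R c = T.π x (low T k)

end Cycles

end SDCK
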