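import Pool.Agent.LibSD51.Ideal

/-!
# Lower halves in a two-sided ideal
-/

namespace SDCK

universe u v

open Polynomial

section family

variable {A : Type u} [Ring A] [Algebra ℚ A]

/-- `J` is closed under sums and under multiplication by arbitrary elements. -/
structure IsIdeal (J : Set A) : Prop where
  zero : (0 : A) ∈ J
  add : ∀ a ∈ J, ∀ b ∈ J, a + b ∈ J
  mul : ∀ x, ∀ a ∈ J, ∀ y, x * a * y ∈ J

theorem IsIdeal.sum {J : Set A} (hJ : IsIdeal J) {ι : Type} (s : Finset ι) (f : ι → A)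
    (h : ∀ i ∈ s, f i ∈ J) : ∑ i ∈ s, f i ∈ J := by
  classical
  induction s using Finset.induction_on with
  | empty => simpa using hJ.zero
  | insert a s ha ih =>
    rw [Finset.sum_insert ha]
    exact hJ.add _ (h a (Finset.mem_insert_self a s)) _
      (ih fun i hi => h i (Finset.mem_insert_of_mem hi))

theorem IsIdeal.mul_right {J : Set A} (hJ : IsIdeal J) {a : A} (ha : a ∈ J) (y : A) :
    a * y ∈ J := by
  have := hJ.mul 1 a ha y
  rwa [one_mul] at this

/-- Add one idempotent to an orthogonal family. -/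
theorem snoc_step {H : Type v} [Ring H] (R : A →+* H) {n : ℕ} {q : Fin n → A}
    (hq : OrthogonalIdempotents q) {p : A} (hp : p * p = p)
    (h0 : p * (∑ i, q i) * (p * ∑ i, q i) = 0) (hR : ∀ i, R p * R (q i) = 0)
    (hR' : ∀ i, R (q i) * R p = 0) :
    ∃ x y, OrthogonalIdempotents (Fin.snoc (α := fun _ => A) q (x * p * y)) ∧
      R (x * p * y) = R p := by
  have hEq : ∀ j, (∑ i, q i) * q j = q j := fun j => by
    rw [Finset.sum_mul]; simp [hq.mul_eq]
  have hqE : ∀ j, q j * (∑ i, q i) = q j := fun j => by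
    rw [Finset.mul_sum]; simp [hq.mul_eq]
  have hE : (∑ i, q i) * (∑ i, q i) = ∑ i, q i := by
    rw [Finset.mul_sum]
    exact Finset.sum_congr rfl fun j _ => hEq j
  obtain ⟨x, y, h1, h2, h3, h4⟩ := ortho_step R hE hp h0
    (by rw [map_sum, Finset.mul_sum]; exact Finset.sum_eq_zero fun i _ => hR i)
    (by rw [map_sum, Finset.sum_mul]; exact Finset.sum_eq_zero fun i _ => hR' i)
  refine ⟨x, y, ⟨fun i => ?_, fun i j hij => ?_⟩, h4⟩
  · refine Fin.lastCases ?_ (fun i => ?_) i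
    · rw [Fin.snoc_last]; exact h1
    · rw [Fin.snoc_castSucc]; exact hq.idem i
  · revert hij
    refine Fin.lastCases ?_ (fun i => ?_) i <;> refine Fin.lastCases ?_ (fun j => ?_) j
    · intro h; exact absurd rfl h
    · intro _
      change Fin.snoc (α := fun _ => A) q (x * p * y) (Fin.last n) *
        Fin.snoc (α := fun _ => A) q (x * p * y) j.castSucc = 0
      rw [Fin.snoc_last, Fin.snoc_castSucc, ← hEq j, ← mul_assoc, h3, zero_mul]
    · intro _
      change Fin.snoc (α := fun _ => A) q (x * p * y) i.castSucc *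
        Fin.snoc (α := fun _ => A) q (x * p * y) (Fin.last n) = 0
      rw [Fin.snoc_last, Fin.snoc_castSucc, ← hqE i, mul_assoc, h2, mul_zero]
    · intro h
      change Fin.snoc (α := fun _ => A) q (x * p * y) i.castSucc *
        Fin.snoc (α := fun _ => A) q (x * p * y) j.castSucc = 0
      rw [Fin.snoc_castSucc, Fin.snoc_castSucc]
      exact hq.ortho fun h' => h (congrArg Fin.castSucc h')

/-- Lift orthogonal idempotents to orthogonal idempotents in an ideal. -/
theorem exists_family {H : Type v} [Ring H] (R : A →+* H) {J : Set A} (hJ : IsIdeal J)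
    (hT : ∀ u ∈ J, ∀ v ∈ J, ∀ g, R g = 0 → u * g * v * (u * g * v) = 0) (n : ℕ) :
    ∀ (ϖ : Fin n → H) (_ : OrthogonalIdempotents ϖ) (p : Fin n → A) (_ : ∀ i, p i ∈ J)
      (_ : ∀ i, p i * p i = p i) (_ : ∀ i, R (p i) = ϖ i),
      ∃ q : Fin n → A, OrthogonalIdempotents q ∧ (∀ i, q i ∈ J) ∧ ∀ i, R (q i) = ϖ i := by
  induction n with
  | zero =>
    intro ϖ _ p _ _ _
    exact ⟨p, ⟨fun i => i.elim0, fun i => i.elim0⟩, fun i => i.elim0, fun i => i.elim0⟩
  | succ n ih =>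
    intro ϖ hϖ p hpJ hpp hpR
    obtain ⟨q, hq, hqJ, hqR⟩ := ih (fun i => ϖ i.castSucc)
      ⟨fun i => hϖ.idem _, fun i j hij => hϖ.ortho fun h => hij (Fin.castSucc_injective _ h)⟩
      (fun i => p i.castSucc) (fun i => hpJ _) (fun i => hpp _) (fun i => hpR _)
    have hne : ∀ i : Fin n, i.castSucc ≠ Fin.last n := fun i => (Fin.castSucc_lt_last i).ne
    have hR1 : ∀ i, R (p (Fin.last n)) * R (q i) = 0 := fun i => by
      rw [hpR, hqR]; exact hϖ.ortho (hne i).symm
    have hR2 : ∀ i, R (q i) * R (p (Fin.last n)) = 0 := fun i => by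
      rw [hpR, hqR]; exact hϖ.ortho (hne i)
    have hEJ : ∑ i, q i ∈ J := hJ.sum _ _ fun i _ => hqJ i
    have hEE : (∑ i, q i) * (∑ i, q i) = ∑ i, q i := by
      rw [Finset.mul_sum]
      refine Finset.sum_congr rfl fun j _ => ?_
      rw [Finset.sum_mul]; simp [hq.mul_eq]
    have h0 : p (Fin.last n) * (∑ i, q i) * (p (Fin.last n) * ∑ i, q i) = 0 := by
      have h1 := hT _ (hpJ (Fin.last n)) _ hEJ (p (Fin.last n) * ∑ i, q i) (by
        rw [map_mul, map_sum, Finset.mul_sum]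
        exact Finset.sum_eq_zero fun i _ => hR1 i)
      have h2 : p (Fin.last n) * (p (Fin.last n) * ∑ i, q i) * ∑ i, q i
          = p (Fin.last n) * ∑ i, q i := by
        rw [← mul_assoc, hpp, mul_assoc, hEE]
      rwa [h2] at h1
    obtain ⟨x, y, h1, h2⟩ := snoc_step R hq (hpp (Fin.last n)) h0 hR1 hR2
    refine ⟨_, h1, fun i => ?_, fun i => ?_⟩
    · refine Fin.lastCases ?_ (fun i => ?_) i
      · rw [Fin.snoc_last]; exact hJ.mul _ _ (hpJ _) _
      · rw [Fin.snoc_castSucc]; exact hqJ i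
    · refine Fin.lastCases ?_ (fun i => ?_) i
      · rw [Fin.snoc_last, h2, hpR]
      · rw [Fin.snoc_castSucc]; exact hqR i

end family

namespace Corr

variable {d : ℕ} (X : Corr.{u, v} d)

/-- A lower half with sum in the ideal `J` gives a self-dual decomposition with lower half in
`J`, if `J* N J J* N J = 0` for the kernel `N` of `R`. -/
theorem selfDual_of_ideal {J : Set X.A} (hJ : IsIdeal J)
    (hT : ∀ u ∈ J, ∀ g, X.R g = 0 → star u * g * u * (star u * g * u) = 0)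
    {p : Fin d → X.A} (hp : X.IsLowerCK p) (hpJ : ∑ i, p i ∈ J) :
    ∃ P, X.IsSelfDualCK P ∧ ∀ i, P (low i) ∈ J := by
  have hE : (∑ i, p i) * (∑ i, p i) = ∑ i, p i := sum_idem hp.1
  have hE' : star (∑ i, p i) * star (∑ i, p i) = star (∑ i, p i) := by
    rw [← star_mul, hE]
  have hR : X.R (star (∑ i, p i) * ∑ i, p i) = 0 := by
    rw [star_sum, Finset.sum_mul, map_sum]
    refine Finset.sum_eq_zero fun i _ => ?_
    rw [Finset.mul_sum, map_sum]
    exact Finset.sum_eq_zero fun j _ => R_star_mul hp i j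
  have h1 := hT _ hpJ _ hR
  have h2 : star (∑ i, p i) * (star (∑ i, p i) * ∑ i, p i) * ∑ i, p i
      = star (∑ i, p i) * ∑ i, p i := by
    rw [← mul_assoc, hE', mul_assoc, hE]
  rw [h2] at h1
  obtain ⟨P, hP, hxy⟩ := X.selfDual_of_nilpotent_mem hp ⟨2, by rw [pow_two]; exact h1⟩
  refine ⟨P, hP, fun i => ?_⟩
  obtain ⟨x, y, hxy⟩ := hxy i
  rw [hxy, ← sum_mul_self_of_ortho hp.1 i]
  have h3 : x * ((∑ i, p i) * p i) * y = x * (∑ i, p i) * (p i * y) := by noncomm_ring
  rw [h3]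
  exact hJ.mul _ _ hpJ _

/-- The lifts need not be orthogonal if all but the last lie in a smaller ideal. -/
theorem selfDual_of_lifts {J₁ J : Set X.A} (hJ₁ : IsIdeal J₁) (hJ : IsIdeal J) (hle : J₁ ⊆ J)
    (hT : ∀ u ∈ J, ∀ g, X.R g = 0 → star u * g * u * (star u * g * u) = 0)
    (hT₁ : ∀ u ∈ J, ∀ v ∈ J₁, ∀ g, X.R g = 0 → u * g * v * (u * g * v) = 0)
    (hc : ∀ i : Fin d, ∃ c ∈ J, ((i : ℕ) + 1 < d → c ∈ J₁) ∧ IsAlgebraic ℚ c ∧
      X.R c = X.π (low i)) :
    ∃ P, X.IsSelfDualCK P ∧ ∀ i, P (low i) ∈ J := by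
  -- idempotent lifts
  have hp : ∀ i : Fin d, ∃ p ∈ J, ((i : ℕ) + 1 < d → p ∈ J₁) ∧ p * p = p ∧
      X.R p = X.π (low i) := by
    intro i
    obtain ⟨c, hcJ, hcJ₁, hca, hcR⟩ := hc i
    obtain ⟨y, h1, h2⟩ := exists_idem_of_algebraic X.R hca (by
      rw [hcR]; exact (X.π_complete.idem _).eq)
    exact ⟨c * y, hJ.mul_right hcJ y, fun h => hJ₁.mul_right (hcJ₁ h) y, h1, by rw [h2, hcR]⟩
  choose p hpJ hpJ₁ hpp hpR using hp
  rcases d with _ | n
  · exact X.selfDual_of_ideal hJ hT (p := p)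
      ⟨⟨fun i => i.elim0, fun i => i.elim0⟩, fun i => i.elim0⟩ (by simpa using hJ.zero)
  have hπ : OrthogonalIdempotents fun i : Fin (n + 1) => X.π (low i) :=
    ⟨fun i => X.π_complete.idem _, fun i j hij => X.π_complete.ortho
      (fun h => hij (low_injective h))⟩
  have hlt : ∀ i : Fin n, ((i.castSucc : Fin (n + 1)) : ℕ) + 1 < n + 1 := fun i => by
    have := i.2
    rw [Fin.val_castSucc]; omega
  obtain ⟨q, hq, hqJ, hqR⟩ := exists_family X.R hJ₁
    (fun u hu v hv g hg => hT₁ u (hle hu) v hv g hg) n (fun i => X.π (low i.castSucc))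
    ⟨fun i => hπ.idem _, fun i j hij => hπ.ortho fun h => hij (Fin.castSucc_injective _ h)⟩
    (fun i => p i.castSucc) (fun i => hpJ₁ _ (hlt i)) (fun i => hpp _) (fun i => hpR _)
  have hne : ∀ i : Fin n, i.castSucc ≠ Fin.last n := fun i => (Fin.castSucc_lt_last i).ne
  have hR1 : ∀ i, X.R (p (Fin.last n)) * X.R (q i) = 0 := fun i => by
    rw [hpR, hqR]; exact hπ.ortho (hne i).symm
  have hR2 : ∀ i, X.R (q i) * X.R (p (Fin.last n)) = 0 := fun i => by
    rw [hpR, hqR]; exact hπ.ortho (hne i)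
  have hEJ : ∑ i, q i ∈ J₁ := hJ₁.sum _ _ fun i _ => hqJ i
  have hEE : (∑ i, q i) * (∑ i, q i) = ∑ i, q i := by
    rw [Finset.mul_sum]
    refine Finset.sum_congr rfl fun j _ => ?_
    rw [Finset.sum_mul]; simp [hq.mul_eq]
  have h0 : p (Fin.last n) * (∑ i, q i) * (p (Fin.last n) * ∑ i, q i) = 0 := by
    have h1 := hT₁ _ (hpJ (Fin.last n)) _ hEJ (p (Fin.last n) * ∑ i, q i) (by
      rw [map_mul, map_sum, Finset.mul_sum]
      exact Finset.sum_eq_zero fun i _ => hR1 i)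
    have h2 : p (Fin.last n) * (p (Fin.last n) * ∑ i, q i) * ∑ i, q i
        = p (Fin.last n) * ∑ i, q i := by
      rw [← mul_assoc, hpp, mul_assoc, hEE]
    rwa [h2] at h1
  obtain ⟨x, y, h1, h2⟩ := snoc_step X.R hq (hpp (Fin.last n)) h0 hR1 hR2
  refine X.selfDual_of_ideal hJ hT (p := Fin.snoc (α := fun _ => X.A) q
    (x * p (Fin.last n) * y)) ⟨h1, fun i => ?_⟩ (hJ.sum _ _ fun i _ => ?_)
  · refine Fin.lastCases ?_ (fun i => ?_) i
    · rw [Fin.snoc_last, h2, hpR]
    · rw [Fin.snoc_castSucc]; exact hqR i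
  · refine Fin.lastCases ?_ (fun i => ?_) i
    · rw [Fin.snoc_last]; exact hJ.mul _ _ (hpJ _) _
    · rw [Fin.snoc_castSucc]; exact hle (hqJ i)

end Corr

end SDCK
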