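import Pool.Agent.LibSD51.Defs
import Pool.Agent.LibSD51.Family

/-!
# The formal data of a single variety
-/

namespace SDCK

universe u v

namespace Cycles

variable {T : Cycles.{u, v}}

/-! ### the ring of correspondences of degree `0` -/

theorem star_Δ (x : T.ι) : star (T.Δ x) = T.Δ x := by
  have h1 : star (T.Δ x) ∈ T.CH x x (T.dim x) := T.star_mem (T.Δ_mem x)
  have h2 : T.Δ x * star (T.Δ x) = star (T.Δ x) := T.Δ_mul h1
  have h3 := congrArg star h2
  rw [star_mul, star_star, h2] at h3
  exact h3

theorem mul_mem_self {x : T.ι} {a b : T.C} (ha : a ∈ T.CH x x (T.dim x))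
    (hb : b ∈ T.CH x x (T.dim x)) : a * b ∈ T.CH x x (T.dim x) := by
  have h := T.mul_mem ha hb
  rwa [add_sub_cancel_right] at h

variable (T) in
/-- Correspondences of degree `0` of `V x`. -/
def A (x : T.ι) : Type u := ↥(T.CH x x (T.dim x))

instance (x : T.ι) : AddCommGroup (T.A x) := inferInstanceAs (AddCommGroup ↥(T.CH x x (T.dim x)))

instance (x : T.ι) : Module ℚ (T.A x) := inferInstanceAs (Module ℚ ↥(T.CH x x (T.dim x)))

/-- the underlying correspondence -/
def val {x : T.ι} (a : T.A x) : T.C := a.1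

theorem val_mem {x : T.ι} (a : T.A x) : val a ∈ T.CH x x (T.dim x) := a.2

theorem val_inj {x : T.ι} {a b : T.A x} (h : val a = val b) : a = b := Subtype.ext h

/-- the element of the ring with given underlying correspondence -/
def mk' {x : T.ι} (a : T.C) (h : a ∈ T.CH x x (T.dim x)) : T.A x := ⟨a, h⟩

theorem val_mk {x : T.ι} (a : T.C) (h : a ∈ T.CH x x (T.dim x)) : val (mk' a h) = a := rfl

theorem val_add {x : T.ι} (a b : T.A x) : val (a + b) = val a + val b := rfl

theorem val_zero {x : T.ι} : val (0 : T.A x) = 0 := rfl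

theorem val_neg {x : T.ι} (a : T.A x) : val (-a) = -val a := rfl

theorem val_smul {x : T.ι} (q : ℚ) (a : T.A x) : val (q • a) = q • val a := rfl

instance (x : T.ι) : Mul (T.A x) := ⟨fun a b => mk' (val a * val b) (mul_mem_self a.2 b.2)⟩

instance (x : T.ι) : One (T.A x) := ⟨mk' (T.Δ x) (T.Δ_mem x)⟩

theorem val_mul {x : T.ι} (a b : T.A x) : val (a * b) = val a * val b := rfl

theorem val_one {x : T.ι} : val (1 : T.A x) = T.Δ x := rfl

instance (x : T.ι) : Ring (T.A x) :=
  { (inferInstance : AddCommGroup (T.A x)), (inferInstance : Mul (T.A x)),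
    (inferInstance : One (T.A x)) with
    left_distrib := fun a b c => val_inj (by simp only [val_mul, val_add, mul_add])
    right_distrib := fun a b c => val_inj (by simp only [val_mul, val_add, add_mul])
    zero_mul := fun a => val_inj (by simp only [val_mul, val_zero, zero_mul])
    mul_zero := fun a => val_inj (by simp only [val_mul, val_zero, mul_zero])
    mul_assoc := fun a b c => val_inj (by simp only [val_mul, mul_assoc])
    one_mul := fun a => val_inj (by rw [val_mul, val_one]; exact T.Δ_mul (val_mem a))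
    mul_one := fun a => val_inj (by rw [val_mul, val_one]; exact T.mul_Δ (val_mem a)) }

instance (x : T.ι) : Algebra ℚ (T.A x) :=
  Algebra.ofModule
    (fun q a b => val_inj (by simp only [val_mul, val_smul, smul_mul_assoc]))
    (fun q a b => val_inj (by simp only [val_mul, val_smul, mul_smul_comm]))

instance (x : T.ι) : Star (T.A x) := ⟨fun a => mk' (star (val a)) (T.star_mem a.2)⟩

theorem val_star {x : T.ι} (a : T.A x) : val (star a) = star (val a) := rfl

instance (x : T.ι) : StarRing (T.A x) where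
  star_involutive a := val_inj (by rw [val_star, val_star, star_star])
  star_mul a b := val_inj (by rw [val_star, val_mul, val_mul, val_star, val_star, star_mul])
  star_add a b := val_inj (by rw [val_star, val_add, val_add, val_star, val_star, star_add])

theorem val_sum {x : T.ι} {n : ℕ} (f : Fin n → T.A x) : val (∑ i, f i) = ∑ i, val (f i) := by
  let φ : T.A x →+ T.C := ⟨⟨val, val_zero⟩, val_add⟩
  exact map_sum φ f Finset.univ

/-! ### the corner of the cohomology -/

variable (T) in
/-- Endomorphisms of the cohomology of `V x`. -/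
def B (x : T.ι) : Type v := {h : T.H // T.R (T.Δ x) * h = h ∧ h * T.R (T.Δ x) = h}

/-- the underlying endomorphism -/
def vh {x : T.ι} (a : T.B x) : T.H := a.1

theorem vh_inj {x : T.ι} {a b : T.B x} (h : vh a = vh b) : a = b := Subtype.ext h

theorem vh_left {x : T.ι} (a : T.B x) : T.R (T.Δ x) * vh a = vh a := a.2.1

theorem vh_right {x : T.ι} (a : T.B x) : vh a * T.R (T.Δ x) = vh a := a.2.2

theorem ρ_idem (x : T.ι) : T.R (T.Δ x) * T.R (T.Δ x) = T.R (T.Δ x) := by
  rw [← map_mul, T.Δ_mul (T.Δ_mem x)]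

theorem ρ_star (x : T.ι) : star (T.R (T.Δ x)) = T.R (T.Δ x) := by
  rw [← T.R_star, star_Δ]

instance (x : T.ι) : Zero (T.B x) := ⟨⟨0, by simp⟩⟩

instance (x : T.ι) : One (T.B x) := ⟨⟨T.R (T.Δ x), ρ_idem x, ρ_idem x⟩⟩

instance (x : T.ι) : Add (T.B x) :=
  ⟨fun a b => ⟨vh a + vh b, by rw [mul_add, vh_left, vh_left], by rw [add_mul, vh_right, vh_right]⟩⟩

instance (x : T.ι) : Neg (T.B x) :=
  ⟨fun a => ⟨-vh a, by rw [mul_neg, vh_left], by rw [neg_mul, vh_right]⟩⟩

instance (x : T.ι) : Mul (T.B x) :=
  ⟨fun a b => ⟨vh a * vh b, by rw [← mul_assoc, vh_left], by rw [mul_assoc, vh_right]⟩⟩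

instance (x : T.ι) : Star (T.B x) :=
  ⟨fun a => ⟨star (vh a), by
    have h := congrArg star (vh_right a)
    rwa [star_mul, ρ_star] at h, by
    have h := congrArg star (vh_left a)
    rwa [star_mul, ρ_star] at h⟩⟩

theorem vh_zero {x : T.ι} : vh (0 : T.B x) = 0 := rfl

theorem vh_one {x : T.ι} : vh (1 : T.B x) = T.R (T.Δ x) := rfl

theorem vh_add {x : T.ι} (a b : T.B x) : vh (a + b) = vh a + vh b := rfl

theorem vh_neg {x : T.ι} (a : T.B x) : vh (-a) = -vh a := rfl

theorem vh_mul {x : T.ι} (a b : T.B x) : vh (a * b) = vh a * vh b := rfl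

theorem vh_star {x : T.ι} (a : T.B x) : vh (star a) = star (vh a) := rfl

instance (x : T.ι) : Ring (T.B x) where
  add_assoc a b c := vh_inj (by simp only [vh_add, add_assoc])
  zero_add a := vh_inj (by simp only [vh_add, vh_zero, zero_add])
  add_zero a := vh_inj (by simp only [vh_add, vh_zero, add_zero])
  nsmul := nsmulRec
  zsmul := zsmulRec
  neg_add_cancel a := vh_inj (by simp only [vh_add, vh_neg, vh_zero, neg_add_cancel])
  add_comm a b := vh_inj (by simp only [vh_add, add_comm])
  left_distrib a b c := vh_inj (by simp only [vh_mul, vh_add, mul_add])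
  right_distrib a b c := vh_inj (by simp only [vh_mul, vh_add, add_mul])
  zero_mul a := vh_inj (by simp only [vh_mul, vh_zero, zero_mul])
  mul_zero a := vh_inj (by simp only [vh_mul, vh_zero, mul_zero])
  mul_assoc a b c := vh_inj (by simp only [vh_mul, mul_assoc])
  one_mul a := vh_inj (by rw [vh_mul, vh_one, vh_left])
  mul_one a := vh_inj (by rw [vh_mul, vh_one, vh_right])

instance (x : T.ι) : StarRing (T.B x) where
  star_involutive a := vh_inj (by rw [vh_star, vh_star, star_star])
  star_mul a b := vh_inj (by rw [vh_star, vh_mul, vh_mul, vh_star, vh_star, star_mul])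
  star_add a b := vh_inj (by rw [vh_star, vh_add, vh_add, vh_star, vh_star, star_add])

theorem vh_sum {x : T.ι} {n : ℕ} (f : Fin n → T.B x) : vh (∑ i, f i) = ∑ i, vh (f i) := by
  let φ : T.B x →+ T.H := ⟨⟨vh, vh_zero⟩, vh_add⟩
  exact map_sum φ f Finset.univ

/-- the action on the cohomology of `V x` -/
def RB (x : T.ι) : T.A x →+* T.B x where
  toFun a := ⟨T.R (val a), by rw [← map_mul, T.Δ_mul (val_mem a)], by
    rw [← map_mul, T.mul_Δ (val_mem a)]⟩
  map_one' := rfl
  map_mul' a b := vh_inj (by
    change T.R (val (a * b)) = T.R (val a) * T.R (val b)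
    rw [val_mul, map_mul])
  map_zero' := vh_inj (by
    change T.R (val (0 : T.A x)) = 0
    rw [val_zero, map_zero])
  map_add' a b := vh_inj (by
    change T.R (val (a + b)) = T.R (val a) + T.R (val b)
    rw [val_add, map_add])

theorem vh_RB {x : T.ι} (a : T.A x) : vh (RB x a) = T.R (val a) := rfl

theorem ρ_mul_π (x : T.ι) (k : Fin (2 * T.dim x + 1)) : T.R (T.Δ x) * T.π x k = T.π x k := by
  rw [← T.π_sum, Finset.sum_mul]
  simp [(T.π_ortho x).mul_eq]

theorem π_mul_ρ (x : T.ι) (k : Fin (2 * T.dim x + 1)) : T.π x k * T.R (T.Δ x) = T.π x k := by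
  rw [← T.π_sum, Finset.mul_sum]
  simp [(T.π_ortho x).mul_eq]

/-- The formal data of the single variety `V x`. -/
def toCorr (x : T.ι) : Corr.{u, v} (T.dim x) where
  A := T.A x
  ringA := inferInstance
  algA := inferInstance
  starA := inferInstance
  H := T.B x
  ringH := inferInstance
  starH := inferInstance
  R := RB x
  R_star a := vh_inj (by rw [vh_RB, vh_star, vh_RB, val_star, T.R_star])
  π k := ⟨T.π x k, ρ_mul_π x k, π_mul_ρ x k⟩
  π_complete := ⟨⟨fun k => vh_inj ((T.π_ortho x).idem k), fun k l h =>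
    vh_inj ((T.π_ortho x).ortho h)⟩, vh_inj (by rw [vh_sum, vh_one]; exact T.π_sum x)⟩
  π_star k := vh_inj (T.π_star x k)

end Cycles

end SDCK
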