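import Pool.Agent.LibSDCK.Algebraic

/-!
# Self-dual decompositions inside a two-sided ideal

The lower half of the self-dual decomposition obtained from a lower half `p` lies in the
two-sided ideal generated by `p`.
-/

namespace SDCK

universe u v

open Polynomial

namespace Corr

variable {d : ℕ} (X : Corr.{u, v} d)

/-- An isotropic lower half gives a self-dual Chow-Künneth decomposition. -/
theorem selfDual_of_isotropic_mem {p : Fin d → X.A} (hp : X.IsLowerCK p)
    (hiso : ∀ i j, star (p i) * p j = 0) :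
    ∃ P, X.IsSelfDualCK P ∧ ∀ i, ∃ y, P (low i) = p i * y := by
  classical
  let e := ∑ i, p i
  let f := star e
  let h : X.A := algebraMap ℚ X.A (1 / 2)
  have hh : h + h = 1 := by
    rw [← map_add]; norm_num
  have hcom : ∀ x : X.A, h * x = x * h := fun x => Algebra.commutes _ _
  have hstar : star h = h := by
    have h1 : h = (1 / 2 : ℚ) • (1 : X.A) := Algebra.algebraMap_eq_smul_one _
    rw [h1, star_rat_smul, star_one]
  have fp : ∀ j, f * p j = 0 := by
    intro j
    change star (∑ i, p i) * p j = 0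
    rw [star_sum, Finset.sum_mul]
    exact Finset.sum_eq_zero fun i _ => hiso i j
  have pe : ∀ j, p j * e = p j := fun j => self_mul_sum_of_ortho hp.1 j
  have spe : ∀ j, star (p j) * e = 0 := by
    intro j
    have := congrArg star (fp j)
    rw [star_mul, star_star, star_zero] at this
    exact this
  have fsp : ∀ j, f * star (p j) = star (p j) := by
    intro j
    rw [← star_mul, pe]
  have pp := hp.1.mul_eq
  -- the new lower half
  let q : Fin d → X.A := fun i => p i - h * (p i * f)
  have hq1 : ∀ i j, q i * q j = if i = j then q i else 0 := by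
    intro i j
    have h1 : q i * q j = p i * p j - h * (p i * p j * f) := by
      change (p i - h * (p i * f)) * (p j - h * (p j * f)) = _
      have a1 : p i * (h * (p j * f)) = h * (p i * p j * f) := by
        rw [← mul_assoc, ← hcom, mul_assoc, mul_assoc]
      have a2 : h * (p i * f) * p j = 0 := by
        rw [mul_assoc, mul_assoc, fp, mul_zero, mul_zero]
      have a3 : h * (p i * f) * (h * (p j * f)) = 0 := by
        rw [hcom (p j * f), ← mul_assoc, ← mul_assoc, a2, zero_mul, zero_mul]
      rw [sub_mul, mul_sub, mul_sub, a1, a2, a3, sub_zero, sub_zero]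
    rw [h1, pp]
    split_ifs
    · rfl
    · simp
  have hqs : ∀ i, star (q i) = star (p i) - h * (e * star (p i)) := by
    intro i
    change star (p i - h * (p i * star e)) = _
    rw [star_sub, star_mul, star_mul, star_star, hstar, ← hcom]
  have hq2 : ∀ i j, star (q i) * q j = 0 := by
    intro i j
    rw [hqs]
    change (star (p i) - h * (e * star (p i))) * (p j - h * (p j * f)) = 0
    have a1 : star (p i) * (h * (p j * f)) = 0 := by
      rw [hcom (p j * f), ← mul_assoc, ← mul_assoc, hiso, zero_mul, zero_mul]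
    have a2 : h * (e * star (p i)) * p j = 0 := by
      rw [mul_assoc, mul_assoc, hiso, mul_zero, mul_zero]
    have a3 : h * (e * star (p i)) * (h * (p j * f)) = 0 := by
      rw [hcom (p j * f), ← mul_assoc, ← mul_assoc, a2, zero_mul, zero_mul]
    rw [sub_mul, mul_sub, mul_sub, hiso, a1, a2, a3]; simp
  have hq3 : ∀ i j, q i * star (q j) = 0 := by
    intro i j
    rw [hqs]
    change (p i - h * (p i * f)) * (star (p j) - h * (e * star (p j))) = 0
    have a1 : p i * (h * (e * star (p j))) = h * (p i * star (p j)) := by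
      rw [← mul_assoc, ← hcom, mul_assoc, ← mul_assoc (p i), pe]
    have a2 : h * (p i * f) * star (p j) = h * (p i * star (p j)) := by
      rw [mul_assoc, mul_assoc, fsp]
    have a3 : h * (p i * f) * (h * (e * star (p j))) = 0 := by
      have fe : f * e = 0 := by
        change f * (∑ i, p i) = 0
        rw [Finset.mul_sum]
        exact Finset.sum_eq_zero fun i _ => fp i
      calc h * (p i * f) * (h * (e * star (p j))) = h * p i * (f * h) * (e * star (p j)) := by
            noncomm_ring
        _ = h * p i * h * (f * e) * star (p j) := by rw [← hcom f]; noncomm_ring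
        _ = 0 := by rw [fe]; simp
    rw [sub_mul, mul_sub, mul_sub, a1, a2, a3, sub_zero]
    have a4 : p i * star (p j) = h * (p i * star (p j)) + h * (p i * star (p j)) := by
      rw [← add_mul, hh, one_mul]
    rw [sub_sub, ← a4, sub_self]
  have hq4 : ∀ i, X.R (q i) = X.π (low i) := by
    intro i
    have h1 : X.R (p i * f) = 0 := by
      change X.R (p i * star (∑ j, p j)) = 0
      rw [star_sum, Finset.mul_sum, map_sum]
      exact Finset.sum_eq_zero fun j _ => R_mul_star hp i j
    change X.R (p i - h * (p i * f)) = _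
    rw [map_sub, map_mul, h1, mul_zero, sub_zero, hp.2]
  -- the full decomposition
  let E := ∑ i, q i
  let P : Fin (2 * d + 1) → X.A := fun i =>
    if h : (i : ℕ) < d then q ⟨i, h⟩
    else if h' : (i : ℕ) = d then 1 - E - star E
    else star (q ⟨2 * d - i, by omega⟩)
  have hPlow : ∀ i : Fin d, P (low i) = q i := by
    intro i
    have h1 : ((low i : Fin (2 * d + 1)) : ℕ) < d := i.2
    simp only [P, dif_pos h1]
    rfl
  have hPup : ∀ i : Fin d, P (low i).rev = star (q i) := by
    intro i
    have hv : ((low i).rev : ℕ) = 2 * d - i := by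
      simp only [Fin.val_rev, low]; omega
    have h1 : ¬ ((low i).rev : ℕ) < d := by have := i.2; omega
    have h2 : ¬ ((low i).rev : ℕ) = d := by have := i.2; omega
    simp only [P, dif_neg h1, dif_neg h2]
    congr 2
    apply Fin.ext
    change 2 * d - ((low i).rev : ℕ) = i
    have := i.2; omega
  let mid : Fin (2 * d + 1) := ⟨d, by omega⟩
  have hPmid : P mid = 1 - E - star E := by
    have h1 : ¬ (mid : ℕ) < d := lt_irrefl d
    simp only [P, dif_neg h1]
    rw [dif_pos rfl]
  have hcases : ∀ i : Fin (2 * d + 1), (∃ j, i = low j) ∨ i = mid ∨ ∃ j, i = (low j).rev := by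
    intro i
    rcases lt_trichotomy (i : ℕ) d with h | h | h
    · exact Or.inl ⟨⟨i, h⟩, rfl⟩
    · exact Or.inr (Or.inl (Fin.ext h))
    · refine Or.inr (Or.inr ⟨⟨2 * d - i, by omega⟩, Fin.ext ?_⟩)
      simp only [Fin.val_rev, low]; omega
  have hmidrev : mid.rev = mid := Fin.ext (by simp only [Fin.val_rev, mid]; omega)
  have hlowinj : ∀ i j : Fin d, low i = low j → i = j := fun i j h => by
    have h1 := congrArg Fin.val h
    exact Fin.ext h1
  have hlowmid : ∀ i : Fin d, low i ≠ mid := fun i h => by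
    have h1 : (i : ℕ) = d := congrArg Fin.val h
    have := i.2; omega
  have hrevmid : ∀ i : Fin d, (low i).rev ≠ mid := fun i h => by
    apply hlowmid i
    rw [← Fin.rev_rev (low i), h, hmidrev]
  have hPstar : ∀ i, star (P i) = P i.rev := by
    intro i
    rcases hcases i with ⟨j, rfl⟩ | rfl | ⟨j, rfl⟩
    · rw [hPlow, hPup]
    · rw [hmidrev, hPmid, star_sub, star_sub, star_star, star_one]; abel
    · rw [hPup, Fin.rev_rev, hPlow, star_star]
  have Eq : ∀ j, E * q j = q j := by
    intro j
    change (∑ i, q i) * q j = q j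
    rw [Finset.sum_mul]; simp only [hq1]; simp
  have qE : ∀ j, q j * E = q j := by
    intro j
    change q j * (∑ i, q i) = q j
    rw [Finset.mul_sum]; simp only [hq1]; simp
  have sEq : ∀ j, star E * q j = 0 := by
    intro j
    change star (∑ i, q i) * q j = 0
    rw [star_sum, Finset.sum_mul]
    exact Finset.sum_eq_zero fun i _ => hq2 i j
  have qsE : ∀ j, q j * star E = 0 := by
    intro j
    change q j * star (∑ i, q i) = 0
    rw [star_sum, Finset.mul_sum]
    exact Finset.sum_eq_zero fun i _ => hq3 j i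
  have Esq : ∀ j, E * star (q j) = 0 := by
    intro j
    have := congrArg star (qsE j)
    rwa [star_mul, star_star, star_zero] at this
  have sqE : ∀ j, star (q j) * E = 0 := by
    intro j
    have := congrArg star (sEq j)
    rwa [star_mul, star_star, star_zero] at this
  have sEsq : ∀ j, star E * star (q j) = star (q j) := by
    intro j; rw [← star_mul, qE]
  have sqsE : ∀ j, star (q j) * star E = star (q j) := by
    intro j; rw [← star_mul, Eq]
  have hortho : Pairwise (P · * P · = 0) := by
    intro i j hij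
    rcases hcases i with ⟨a, rfl⟩ | rfl | ⟨a, rfl⟩ <;> rcases hcases j with ⟨b, rfl⟩ | rfl | ⟨b, rfl⟩
    · rw [hPlow, hPlow, hq1, if_neg]
      intro h; exact hij (by rw [h])
    · rw [hPlow, hPmid, mul_sub, mul_sub, mul_one, qE, qsE]; simp
    · rw [hPlow, hPup, hq3]
    · rw [hPlow, hPmid, sub_mul, sub_mul, one_mul, Eq, sEq]; simp
    · exact absurd rfl hij
    · rw [hPup, hPmid, sub_mul, sub_mul, one_mul, Esq, sEsq]; simp
    · rw [hPlow, hPup, hq2]
    · rw [hPup, hPmid, mul_sub, mul_sub, mul_one, sqE, sqsE]; simp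
    · rw [hPup, hPup, ← star_mul, hq1, if_neg]
      · simp
      · intro h; exact hij (by rw [h])
  -- sums over all degrees
  have hunivA : ∀ F : Fin (2 * d + 1) → X.A,
      ∑ i, F i = (∑ j : Fin d, F (low j)) + F mid + ∑ j : Fin d, F (low j).rev := by
    intro F
    have h1 : (Finset.univ : Finset (Fin (2 * d + 1))) =
        ((Finset.univ.image low) ∪ {mid}) ∪ (Finset.univ.image fun j : Fin d => (low j).rev) := by
      ext i
      simp only [Finset.mem_univ, Finset.mem_union, Finset.mem_image, Finset.mem_singleton,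
        true_and, true_iff]
      rcases hcases i with ⟨j, rfl⟩ | rfl | ⟨j, rfl⟩
      · exact Or.inl (Or.inl ⟨j, rfl⟩)
      · exact Or.inl (Or.inr rfl)
      · exact Or.inr ⟨j, rfl⟩
    rw [h1, Finset.sum_union, Finset.sum_union, Finset.sum_image, Finset.sum_image,
      Finset.sum_singleton]
    · intro a _ b _ h; exact hlowinj a b (Fin.rev_injective h)
    · intro a _ b _ h; exact hlowinj a b h
    · rw [Finset.disjoint_left]
      rintro _ h1 h2
      rw [Finset.mem_image] at h1
      rw [Finset.mem_singleton] at h2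
      obtain ⟨j, -, rfl⟩ := h1
      exact hlowmid j h2
    · rw [Finset.disjoint_left]
      rintro _ h1 h2
      rw [Finset.mem_image] at h2
      obtain ⟨j, -, rfl⟩ := h2
      rw [Finset.mem_union, Finset.mem_image, Finset.mem_singleton] at h1
      rcases h1 with ⟨i, -, h1⟩ | h1
      · exact low_ne_rev i j h1
      · exact hrevmid j h1
  have hcomplete : ∑ i, P i = 1 := by
    rw [hunivA, hPmid]
    simp only [hPlow, hPup]
    rw [← star_sum]
    change E + (1 - E - star E) + star E = 1
    abel
  have hCK : CompleteOrthogonalIdempotents P :=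
    CompleteOrthogonalIdempotents.iff_ortho_complete.2 ⟨hortho, hcomplete⟩
  refine ⟨P, ⟨⟨hCK, fun i => ?_⟩, hPstar⟩, fun i => ⟨1 - h * f, ?_⟩⟩
  swap
  · rw [hPlow]
    change p i - h * (p i * f) = p i * (1 - h * f)
    rw [mul_sub, mul_one, ← mul_assoc, ← mul_assoc, hcom]
  have hlowR : ∀ j, X.R (P (low j)) = X.π (low j) := fun j => by rw [hPlow, hq4]
  have hupR : ∀ j : Fin d, X.R (P (low j).rev) = X.π (low j).rev := fun j => by
    rw [hPup, X.R_star, hq4, X.π_star]
  rcases hcases i with ⟨j, rfl⟩ | rfl | ⟨j, rfl⟩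
  · exact hlowR j
  · have h1 : ∀ F : Fin (2 * d + 1) → X.H, ∑ i, F i
        = F mid + ∑ i ∈ Finset.univ.erase mid, F i := fun F =>
      (Finset.add_sum_erase _ _ (Finset.mem_univ mid)).symm
    have h2 : ∑ i, X.R (P i) = ∑ i, X.π i := by
      rw [← map_sum, hcomplete, map_one, X.π_complete.complete]
    rw [h1, h1 X.π] at h2
    have h3 : ∑ i ∈ Finset.univ.erase mid, X.R (P i) = ∑ i ∈ Finset.univ.erase mid, X.π i := by
      refine Finset.sum_congr rfl fun i hi => ?_
      rcases hcases i with ⟨j, rfl⟩ | rfl | ⟨j, rfl⟩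
      · exact hlowR j
      · exact absurd rfl (Finset.mem_erase.1 hi).1
      · exact hupR j
    rw [h3] at h2
    exact add_right_cancel h2
  · exact hupR j

/-- If `e* e` is nilpotent, there is a self-dual decomposition in the ideal of the lower half. -/
theorem selfDual_of_nilpotent_mem {p : Fin d → X.A} (hp : X.IsLowerCK p)
    (hn : IsNilpotent (star (∑ i, p i) * ∑ i, p i)) :
    ∃ P, X.IsSelfDualCK P ∧ ∀ i, ∃ x y, P (low i) = x * p i * y := by
  obtain ⟨v, w, h1, h2, h3, h4⟩ := X.exists_norm_of_nilpotent hp hn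
  obtain ⟨h5, h6⟩ := X.isotropic_of_norm hp v w h1 h2 h4 (fun i => by rw [h3, one_mul, mul_one])
  obtain ⟨P, hP, hy⟩ := X.selfDual_of_isotropic_mem h5 h6
  refine ⟨P, hP, fun i => ?_⟩
  obtain ⟨y, hy⟩ := hy i
  exact ⟨v, w * y, by rw [hy]; noncomm_ring⟩

end Corr

section algebraic

variable {A : Type u} [Ring A] [Algebra ℚ A]

/-- An algebraic lift of an idempotent has an idempotent multiple with the same image. -/
theorem exists_idem_of_algebraic {H : Type v} [Ring H] (R : A →+* H) {c : A}
    (hc : IsAlgebraic ℚ c) (hRc : R c * R c = R c) :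
    ∃ y, c * y * (c * y) = c * y ∧ R (c * y) = R c := by
  obtain ⟨P, hP0, hP⟩ := hc
  obtain ⟨Q, hPQ, hQ⟩ := Polynomial.exists_eq_pow_rootMultiplicity_mul_and_not_dvd P hP0 1
  set l := P.rootMultiplicity 1
  have hirr : Irreducible (Polynomial.X - Polynomial.C (1 : ℚ)) := Polynomial.irreducible_X_sub_C 1
  have hQX : ¬ (Polynomial.X - Polynomial.C (1 : ℚ)) ∣ Polynomial.X * Q := by
    intro h
    rcases (hirr.prime.dvd_or_dvd h) with h | h
    · rw [Polynomial.dvd_iff_isRoot] at h
      simp at h
    · exact hQ h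
  have hcop : IsCoprime ((Polynomial.X - Polynomial.C (1 : ℚ)) ^ (l + 1)) (Polynomial.X * Q) :=
    IsCoprime.pow_left ((hirr.coprime_iff_not_dvd).2 hQX)
  obtain ⟨u, w, huw⟩ := hcop
  have h2 : 1 - Polynomial.X * (w * Q) = u * (Polynomial.X - Polynomial.C (1 : ℚ)) ^ (l + 1) := by
    rw [← huw]; ring
  have key : ∀ f : ℚ[X], P ∣ f → aeval c f = 0 := by
    rintro f ⟨t, rfl⟩
    rw [map_mul, hP, zero_mul]
  have h0 : c * aeval c (w * Q) = aeval c (Polynomial.X * (w * Q)) := by
    rw [map_mul (aeval c) Polynomial.X, aeval_X]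
  refine ⟨aeval c (w * Q), ?_, ?_⟩
  · rw [h0, ← map_mul, ← sub_eq_zero, ← map_sub]
    apply key
    have h1 : Polynomial.X * (w * Q) * (Polynomial.X * (w * Q)) - Polynomial.X * (w * Q)
        = - (Polynomial.X * (w * Q)) * (1 - Polynomial.X * (w * Q)) := by ring
    rw [h1, h2, hPQ]
    exact ⟨-(Polynomial.X * w * u * (Polynomial.X - Polynomial.C (1 : ℚ))), by ring⟩
  · have h5 : Polynomial.X * (w * Q) - Polynomial.X = (Polynomial.X * Polynomial.X - Polynomial.X)
        * (-(w * Q) - u * (Polynomial.X - Polynomial.C (1 : ℚ)) ^ l) := by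
      rw [map_one] at huw ⊢
      linear_combination Polynomial.X * huw
    have h6 := congrArg (fun f => R (aeval c f)) h5
    simp only [map_sub, map_mul, aeval_X] at h6
    rw [hRc, sub_self, zero_mul, sub_eq_zero] at h6
    rw [map_mul, map_mul, map_mul]
    exact h6

/-- Make an idempotent `p` orthogonal to `E` when `(p E)² = 0`. -/
theorem ortho_step {H : Type v} [Ring H] (R : A →+* H) {E p : A} (hE : E * E = E)
    (hp : p * p = p) (h0 : p * E * (p * E) = 0) (hR : R p * R E = 0) (hR' : R E * R p = 0) :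
    ∃ x y, (x * p * y) * (x * p * y) = x * p * y ∧ E * (x * p * y) = 0 ∧
      (x * p * y) * E = 0 ∧ R (x * p * y) = R p := by
  let c := (1 - E) * p * (1 - E)
  have hE1 : E * (1 - E) = 0 := by rw [mul_sub, mul_one, hE, sub_self]
  have hE2 : (1 - E) * E = 0 := by rw [sub_mul, one_mul, hE, sub_self]
  have hE3 : (1 - E) * (1 - E) = 1 - E := by rw [mul_sub, mul_one, hE2, sub_zero]
  have hEc : E * c = 0 := by
    change E * ((1 - E) * p * (1 - E)) = 0
    rw [← mul_assoc, ← mul_assoc, hE1]; simp
  have hcE : c * E = 0 := by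
    change (1 - E) * p * (1 - E) * E = 0
    rw [mul_assoc, hE2, mul_zero]
  have hpEp : p * E * p * E * p = 0 := by
    have : p * E * p * E * p = p * E * (p * E) * p := by noncomm_ring
    rw [this, h0, zero_mul]
  have hc1 : c * c - c = - ((1 - E) * (p * E * p) * (1 - E)) := by
    have h1 : c * c = (1 - E) * (p * (1 - E) * p) * (1 - E) := by
      change (1 - E) * p * (1 - E) * ((1 - E) * p * (1 - E)) = _
      calc (1 - E) * p * (1 - E) * ((1 - E) * p * (1 - E))
          = (1 - E) * p * ((1 - E) * (1 - E)) * p * (1 - E) := by noncomm_ring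
        _ = (1 - E) * (p * (1 - E) * p) * (1 - E) := by rw [hE3]; noncomm_ring
    have h2 : p * (1 - E) * p = p - p * E * p := by rw [mul_sub, sub_mul, mul_one, hp]
    rw [h1, h2]
    change _ - (1 - E) * p * (1 - E) = _
    noncomm_ring
  have hc2 : (c * c - c) * (c * c - c) = 0 := by
    rw [hc1]
    calc -((1 - E) * (p * E * p) * (1 - E)) * -((1 - E) * (p * E * p) * (1 - E))
        = (1 - E) * (p * E * p * ((1 - E) * (1 - E)) * (p * E * p)) * (1 - E) := by noncomm_ring
      _ = (1 - E) * (p * E * (p * p) * E * p - p * E * p * E * p * E * p) * (1 - E) := by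
          rw [hE3]; noncomm_ring
      _ = 0 := by rw [hp, hpEp]; simp
  let q := aeval c (Polynomial.C (3 : ℚ) * Polynomial.X - Polynomial.C (2 : ℚ) * Polynomial.X ^ 2)
  have hq : (1 - E) * p * ((1 - E) * q)
      = aeval c (Polynomial.C (3 : ℚ) * Polynomial.X ^ 2 - Polynomial.C (2 : ℚ) *
        Polynomial.X ^ 3) := by
    have h1 : (1 - E) * p * ((1 - E) * q) = c * q := by
      change _ = (1 - E) * p * (1 - E) * q
      noncomm_ring
    have h2 : (Polynomial.C (3 : ℚ) * Polynomial.X ^ 2 - Polynomial.C (2 : ℚ) *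
        Polynomial.X ^ 3 : ℚ[X]) = Polynomial.X * (Polynomial.C (3 : ℚ) * Polynomial.X
          - Polynomial.C (2 : ℚ) * Polynomial.X ^ 2) := by ring
    rw [h1, h2, map_mul (aeval c) Polynomial.X, aeval_X]
  have hq' : aeval c (Polynomial.C (3 : ℚ) * Polynomial.X ^ 2 - Polynomial.C (2 : ℚ) *
      Polynomial.X ^ 3 : ℚ[X]) = q * c := by
    have h2 : (Polynomial.C (3 : ℚ) * Polynomial.X ^ 2 - Polynomial.C (2 : ℚ) *
        Polynomial.X ^ 3 : ℚ[X]) = (Polynomial.C (3 : ℚ) * Polynomial.X
          - Polynomial.C (2 : ℚ) * Polynomial.X ^ 2) * Polynomial.X := by ring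
    rw [h2, map_mul (aeval c) _ Polynomial.X, aeval_X]
  refine ⟨1 - E, (1 - E) * q, ?_, ?_, ?_, ?_⟩
  · rw [hq, ← map_mul, ← sub_eq_zero, ← map_sub]
    have h1 : (Polynomial.C (3 : ℚ) * Polynomial.X ^ 2 - Polynomial.C (2 : ℚ) *
        Polynomial.X ^ 3 : ℚ[X]) * (Polynomial.C (3 : ℚ) * Polynomial.X ^ 2 -
          Polynomial.C (2 : ℚ) * Polynomial.X ^ 3) - (Polynomial.C (3 : ℚ) * Polynomial.X ^ 2 -
          Polynomial.C (2 : ℚ) * Polynomial.X ^ 3)
        = (Polynomial.X * Polynomial.X - Polynomial.X) * (Polynomial.X * Polynomial.X -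
          Polynomial.X) * (-((Polynomial.C (3 : ℚ) - Polynomial.C (2 : ℚ) * Polynomial.X)
            * (Polynomial.C (2 : ℚ) * Polynomial.X + 1))) := by
      have e3 : (Polynomial.C (3 : ℚ) : ℚ[X]) = 3 := rfl
      have e2 : (Polynomial.C (2 : ℚ) : ℚ[X]) = 2 := rfl
      rw [e3, e2]
      ring
    rw [h1, map_mul, map_mul, map_sub, map_mul, aeval_X, hc2, zero_mul]
  · calc E * ((1 - E) * p * ((1 - E) * q)) = E * (1 - E) * p * ((1 - E) * q) := by noncomm_ring
      _ = 0 := by rw [hE1]; simp
  · rw [hq, hq', mul_assoc, hcE, mul_zero]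
  · have hRc : R c = R p := by
      change R ((1 - E) * p * (1 - E)) = R p
      rw [map_mul, map_mul, map_sub, map_one, sub_mul, one_mul, hR', sub_zero, mul_sub, mul_one,
        hR, sub_zero]
    have hRp : R p * R p = R p := by rw [← map_mul, hp]
    have h3 : aeval c (Polynomial.C (3 : ℚ) * Polynomial.X ^ 2 - Polynomial.C (2 : ℚ) *
        Polynomial.X ^ 3 : ℚ[X]) = 3 * (c * c) - 2 * (c * c * c) := by
      have e3 : (Polynomial.C (3 : ℚ) : ℚ[X]) = 3 := rfl
      have e2 : (Polynomial.C (2 : ℚ) : ℚ[X]) = 2 := rfl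
      rw [e3, e2]
      simp only [map_sub, map_mul, map_pow, aeval_X, map_ofNat]
      noncomm_ring
    have hcc : R (c * c) = R p := by rw [map_mul R c c, hRc, hRp]
    have hccc : R (c * c * c) = R p := by rw [map_mul R (c * c) c, hcc, hRc, hRp]
    rw [hq, h3, map_sub, map_mul R 3, map_mul R 2, hcc, hccc, map_ofNat, map_ofNat]
    have h4 : (3 : H) * R p = 2 * R p + R p := by
      have : (3 : H) = 2 + 1 := by norm_num
      rw [this, add_mul, one_mul]
    rw [h4]
    abel

end algebraic

end SDCK
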