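import Pool.Agent.LibSD51.Data

/-!
# Decomposable divisor classes and self-dual Chow-Künneth decompositions
-/

namespace SDCK

universe u v

namespace Cycles

variable {T : Cycles.{u, v}}

/-- An additive map that vanishes on a set vanishes on its span. -/
theorem eq_zero_of_span {s : Set T.C} (f : T.C →+ T.C) (hf : ∀ a ∈ s, f a = 0) :
    ∀ a ∈ Submodule.span ℚ s, f a = 0 := by
  intro a ha
  have h1 : Submodule.span ℚ s ≤ LinearMap.ker f.toRatLinearMap := by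
    rw [Submodule.span_le]
    intro b hb
    exact hf b hb
  exact h1 ha

/-- The products of a decomposable, homologically trivial divisor, a correspondence of the right
codimension and another such divisor vanish. -/
theorem mul_mul_eq_zero {i j i' j' : T.ι} {c c' e : ℤ} {n z n' : T.C} (hn : n ∈ T.CH i j c)
    (hn' : n' ∈ T.CH i' j' c') (hz : z ∈ T.CH j' i e) (hRn : T.R n = 0) (hRn' : T.R n' = 0)
    (hc : c ≤ 1) (hc' : c' ≤ 1) (he : c = 1 → c' = 1 → e = T.dim i + T.dim j' - 1) :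
    n * z * n' = 0 := by
  rcases lt_trichotomy c 0 with h | h | h
  · rw [T.CH_neg h hn]; simp
  · subst h
    rw [T.CH_zero hn hRn]; simp
  have h1 : c = 1 := by omega
  rcases lt_trichotomy c' 0 with h' | h' | h'
  · rw [T.CH_neg h' hn']; simp
  · subst h'
    rw [T.CH_zero hn' hRn']; simp
  have h1' : c' = 1 := by omega
  have he' := he h1 h1'
  subst h1 h1' he'
  have key : ∀ (o o' : T.ι) (b a' : ℤ) (x y x' y' : T.C), T.dim o = 0 → T.dim o' = 0 →
      y ∈ T.CH i o b → x' ∈ T.CH o' j' a' → (b = 0 ∨ b = 1 ∧ T.R y = 0) →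
      (a' = 0 ∨ a' = 1 ∧ T.R x' = 0) → x * y * z * (x' * y') = 0 := by
    intro o o' b a' x y x' y' ho ho' hy hx' hb ha'
    have h2 : y * (z * x') ∈ T.CH o' o (b + (T.dim i + T.dim j' - 1 + a' - T.dim j') - T.dim i) :=
      T.mul_mem hy (T.mul_mem hz hx')
    have h3 : y * (z * x') ∈ T.CH o' o (b + a' - 1) := by
      have h4 : b + ((T.dim i : ℤ) + T.dim j' - 1 + a' - T.dim j') - T.dim i = b + a' - 1 := by
        ring
      rwa [h4] at h2
    have h5 : y * (z * x') = 0 := by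
      rcases hb with rfl | ⟨rfl, hb⟩ <;> rcases ha' with rfl | ⟨rfl, ha'⟩
      · exact T.CH_neg (by norm_num) h3
      · apply T.CH_zero (i := o') (j := o)
        · simpa using h3
        · rw [map_mul, map_mul, ha', mul_zero, mul_zero]
      · apply T.CH_zero (i := o') (j := o)
        · simpa using h3
        · rw [map_mul, hb, zero_mul]
      · refine T.CH_top ?_ h3
        rw [ho, ho']; norm_num
    have h6 : x * y * z * (x' * y') = x * (y * (z * x')) * y' := by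
      simp only [mul_assoc]
    rw [h6, h5]; simp
  have h2 := T.CH_one hn hRn
  have h2' := T.CH_one hn' hRn'
  have step : ∀ a ∈ {w | ∃ o, T.dim o = 0 ∧
      ((∃ x ∈ T.CH o j 0, ∃ y ∈ T.CH i o 1, T.R y = 0 ∧ x * y = w) ∨
        ∃ x ∈ T.CH o j 1, ∃ y ∈ T.CH i o 0, T.R x = 0 ∧ x * y = w)}, a * z * n' = 0 := by
    rintro a ⟨o, ho, ha⟩
    refine eq_zero_of_span (AddMonoidHom.mulLeft (a * z)) ?_ _ h2'
    rintro a' ⟨o', ho', ha'⟩
    change a * z * a' = 0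
    obtain ⟨b, x, y, hy, hb, rfl⟩ : ∃ (b : ℤ) (x y : T.C), y ∈ T.CH i o b ∧
        (b = 0 ∨ b = 1 ∧ T.R y = 0) ∧ x * y = a := by
      rcases ha with ⟨x, -, y, hy, hR, h⟩ | ⟨x, -, y, hy, -, h⟩
      · exact ⟨1, x, y, hy, Or.inr ⟨rfl, hR⟩, h⟩
      · exact ⟨0, x, y, hy, Or.inl rfl, h⟩
    obtain ⟨a'', x', y', hx', hb', rfl⟩ : ∃ (a'' : ℤ) (x' y' : T.C), x' ∈ T.CH o' j' a'' ∧
        (a'' = 0 ∨ a'' = 1 ∧ T.R x' = 0) ∧ x' * y' = a' := by
      rcases ha' with ⟨x', hx', y', -, -, h⟩ | ⟨x', hx', y', -, hR, h⟩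
      · exact ⟨0, x', y', hx', Or.inl rfl, h⟩
      · exact ⟨1, x', y', hx', Or.inr ⟨rfl, hR⟩, h⟩
    exact key o o' b a'' x y x' y' ho ho' hy hx' hb hb'
  have h3 := eq_zero_of_span
    ((AddMonoidHom.mulRight n').comp (AddMonoidHom.mulRight z)) step _ h2
  exact h3

variable {x : T.ι} {w : ℕ}

theorem through_le : T.Through x w ≤ T.CH x x (T.dim x) := by
  refine Submodule.span_le.2 ?_
  rintro _ ⟨j, -, a, ha, b, hb, rfl⟩
  have h := T.mul_mem ha hb
  have h1 : (T.dim j : ℤ) + T.dim x - T.dim j = T.dim x := by ring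
  rwa [h1] at h

theorem mul_through {g a : T.C} (hg : g ∈ T.CH x x (T.dim x)) (ha : a ∈ T.Through x w) :
    g * a ∈ T.Through x w := by
  have h1 : T.Through x w ≤ (T.Through x w).comap (LinearMap.mulLeft ℚ g) := by
    refine Submodule.span_le.2 ?_
    rintro _ ⟨j, hj, a, ha, b, hb, rfl⟩
    refine Submodule.subset_span ⟨j, hj, g * a, ?_, b, hb, mul_assoc _ _ _⟩
    have h := T.mul_mem hg ha
    have h1 : (T.dim x : ℤ) + T.dim j - T.dim x = T.dim j := by ring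
    rwa [h1] at h
  exact h1 ha

theorem through_mul {g a : T.C} (hg : g ∈ T.CH x x (T.dim x)) (ha : a ∈ T.Through x w) :
    a * g ∈ T.Through x w := by
  have h1 : T.Through x w ≤ (T.Through x w).comap (LinearMap.mulRight ℚ g) := by
    refine Submodule.span_le.2 ?_
    rintro _ ⟨j, hj, a, ha, b, hb, rfl⟩
    refine Submodule.subset_span ⟨j, hj, a, ha, b * g, ?_, (mul_assoc _ _ _).symm⟩
    have h := T.mul_mem hb hg
    have h1 : (T.dim x : ℤ) + T.dim x - T.dim x = T.dim x := by ring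
    rwa [h1] at h
  exact h1 ha

/-- `(u* g v) (u'* g' v') = 0` for `u, v, u', v'` factoring through dimension `w`,
`2 w ≤ dim V x + 1`, and homologically trivial `g, g'`. -/
theorem star_mul_mul_eq_zero (hw : 2 * w ≤ T.dim x + 1) {g g' : T.C}
    (hg : g ∈ T.CH x x (T.dim x)) (hRg : T.R g = 0) (hg' : g' ∈ T.CH x x (T.dim x))
    (hRg' : T.R g' = 0) {u v u' v' : T.C} (hu : u ∈ T.Through x w) (hv : v ∈ T.Through x w)
    (hu' : u' ∈ T.Through x w) (hv' : v' ∈ T.Through x w) :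
    star u * g * v * (star u' * g' * v') = 0 := by
  let σ : T.C →+ T.C := (starAddEquiv : T.C ≃+ T.C).toAddMonoidHom
  have h4 : ∀ u ∈ {z | ∃ j, T.dim j ≤ w ∧ ∃ a ∈ T.CH j x (T.dim j), ∃ b ∈ T.CH x j (T.dim x),
      a * b = z}, ∀ v ∈ {z | ∃ j, T.dim j ≤ w ∧ ∃ a ∈ T.CH j x (T.dim j),
      ∃ b ∈ T.CH x j (T.dim x), a * b = z}, ∀ u' ∈ {z | ∃ j, T.dim j ≤ w ∧
      ∃ a ∈ T.CH j x (T.dim j), ∃ b ∈ T.CH x j (T.dim x), a * b = z}, ∀ v' ∈ {z | ∃ j,
      T.dim j ≤ w ∧ ∃ a ∈ T.CH j x (T.dim j), ∃ b ∈ T.CH x j (T.dim x), a * b = z},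
      star u * g * v * (star u' * g' * v') = 0 := by
    rintro _ ⟨j₁, hj₁, a₁, ha₁, b₁, hb₁, rfl⟩ _ ⟨j₂, hj₂, a₂, ha₂, b₂, hb₂, rfl⟩
      _ ⟨j₃, hj₃, a₃, ha₃, b₃, hb₃, rfl⟩ _ ⟨j₄, hj₄, a₄, ha₄, b₄, hb₄, rfl⟩
    have n1 : star a₁ * (g * a₂) ∈ T.CH j₂ j₁ (T.dim j₁ + (T.dim x + T.dim j₂ - T.dim x)
        - T.dim x) := T.mul_mem (T.star_mem ha₁) (T.mul_mem hg ha₂)
    have n2 : star a₃ * (g' * a₄) ∈ T.CH j₄ j₃ (T.dim j₃ + (T.dim x + T.dim j₄ - T.dim x)
        - T.dim x) := T.mul_mem (T.star_mem ha₃) (T.mul_mem hg' ha₄)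
    have z1 : b₂ * star b₃ ∈ T.CH j₃ j₂ (T.dim x + T.dim x - T.dim x) :=
      T.mul_mem hb₂ (T.star_mem hb₃)
    have r1 : T.R (star a₁ * (g * a₂)) = 0 := by rw [map_mul, map_mul, hRg]; simp
    have r2 : T.R (star a₃ * (g' * a₄)) = 0 := by rw [map_mul, map_mul, hRg']; simp
    have h0 := mul_mul_eq_zero n1 n2 z1 r1 r2 (by omega) (by omega) (by intro h h'; omega)
    have h5 : star (a₁ * b₁) * g * (a₂ * b₂) * (star (a₃ * b₃) * g' * (a₄ * b₄))
        = star b₁ * (star a₁ * (g * a₂) * (b₂ * star b₃) * (star a₃ * (g' * a₄))) * b₄ := by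
      simp only [star_mul, mul_assoc]
    rw [h5, h0]; simp
  have h3 : ∀ u ∈ {z | ∃ j, T.dim j ≤ w ∧ ∃ a ∈ T.CH j x (T.dim j), ∃ b ∈ T.CH x j (T.dim x),
      a * b = z}, ∀ v ∈ {z | ∃ j, T.dim j ≤ w ∧ ∃ a ∈ T.CH j x (T.dim j),
      ∃ b ∈ T.CH x j (T.dim x), a * b = z}, ∀ u' ∈ {z | ∃ j, T.dim j ≤ w ∧
      ∃ a ∈ T.CH j x (T.dim j), ∃ b ∈ T.CH x j (T.dim x), a * b = z},
      star u * g * v * (star u' * g' * v') = 0 := fun u hu v hv u' hu' =>
    eq_zero_of_span ((AddMonoidHom.mulLeft (star u * g * v)).comp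
      (AddMonoidHom.mulLeft (star u' * g'))) (h4 u hu v hv u' hu') _ hv'
  have h2 : ∀ u ∈ {z | ∃ j, T.dim j ≤ w ∧ ∃ a ∈ T.CH j x (T.dim j), ∃ b ∈ T.CH x j (T.dim x),
      a * b = z}, ∀ v ∈ {z | ∃ j, T.dim j ≤ w ∧ ∃ a ∈ T.CH j x (T.dim j),
      ∃ b ∈ T.CH x j (T.dim x), a * b = z},
      star u * g * v * (star u' * g' * v') = 0 := fun u hu v hv =>
    eq_zero_of_span ((AddMonoidHom.mulLeft (star u * g * v)).comp
      ((AddMonoidHom.mulRight v').comp ((AddMonoidHom.mulRight g').comp σ)))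
      (h3 u hu v hv) _ hu'
  have h1 : ∀ u ∈ {z | ∃ j, T.dim j ≤ w ∧ ∃ a ∈ T.CH j x (T.dim j), ∃ b ∈ T.CH x j (T.dim x),
      a * b = z}, star u * g * v * (star u' * g' * v') = 0 := fun u hu =>
    eq_zero_of_span ((AddMonoidHom.mulRight (star u' * g' * v')).comp
      (AddMonoidHom.mulLeft (star u * g))) (h2 u hu) _ hv
  exact eq_zero_of_span ((AddMonoidHom.mulRight (star u' * g' * v')).comp
    ((AddMonoidHom.mulRight v).comp ((AddMonoidHom.mulRight g).comp σ))) h1 _ hu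

/-- `(u g v) (u' g' v') = 0` for `u, u'` factoring through dimension `w`, `v, v'` factoring
through dimension `1`, and homologically trivial `g, g'`. -/
theorem mul_mul_mul_eq_zero {g g' : T.C}
    (hg : g ∈ T.CH x x (T.dim x)) (hRg : T.R g = 0) (hg' : g' ∈ T.CH x x (T.dim x))
    (hRg' : T.R g' = 0) {u v u' v' : T.C} (hu : u ∈ T.Through x w) (hv : v ∈ T.Through x 1)
    (hu' : u' ∈ T.Through x w) (hv' : v' ∈ T.Through x 1) :
    u * g * v * (u' * g' * v') = 0 := by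
  have h4 : ∀ u ∈ {z | ∃ j, T.dim j ≤ w ∧ ∃ a ∈ T.CH j x (T.dim j), ∃ b ∈ T.CH x j (T.dim x),
      a * b = z}, ∀ v ∈ {z | ∃ j, T.dim j ≤ 1 ∧ ∃ a ∈ T.CH j x (T.dim j),
      ∃ b ∈ T.CH x j (T.dim x), a * b = z}, ∀ u' ∈ {z | ∃ j, T.dim j ≤ w ∧
      ∃ a ∈ T.CH j x (T.dim j), ∃ b ∈ T.CH x j (T.dim x), a * b = z}, ∀ v' ∈ {z | ∃ j,
      T.dim j ≤ 1 ∧ ∃ a ∈ T.CH j x (T.dim j), ∃ b ∈ T.CH x j (T.dim x), a * b = z},
      u * g * v * (u' * g' * v') = 0 := by
    rintro _ ⟨j₁, hj₁, a₁, ha₁, b₁, hb₁, rfl⟩ _ ⟨j₂, hj₂, a₂, ha₂, b₂, hb₂, rfl⟩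
      _ ⟨j₃, hj₃, a₃, ha₃, b₃, hb₃, rfl⟩ _ ⟨j₄, hj₄, a₄, ha₄, b₄, hb₄, rfl⟩
    have n1 : b₁ * (g * a₂) ∈ T.CH j₂ j₁ (T.dim x + (T.dim x + T.dim j₂ - T.dim x)
        - T.dim x) := T.mul_mem hb₁ (T.mul_mem hg ha₂)
    have n2 : b₃ * (g' * a₄) ∈ T.CH j₄ j₃ (T.dim x + (T.dim x + T.dim j₄ - T.dim x)
        - T.dim x) := T.mul_mem hb₃ (T.mul_mem hg' ha₄)
    have z1 : b₂ * a₃ ∈ T.CH j₃ j₂ (T.dim x + T.dim j₃ - T.dim x) := T.mul_mem hb₂ ha₃
    have r1 : T.R (b₁ * (g * a₂)) = 0 := by rw [map_mul, map_mul, hRg]; simp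
    have r2 : T.R (b₃ * (g' * a₄)) = 0 := by rw [map_mul, map_mul, hRg']; simp
    have h0 := mul_mul_eq_zero n1 n2 z1 r1 r2 (by omega) (by omega) (by intro h h'; omega)
    have h5 : a₁ * b₁ * g * (a₂ * b₂) * (a₃ * b₃ * g' * (a₄ * b₄))
        = a₁ * (b₁ * (g * a₂) * (b₂ * a₃) * (b₃ * (g' * a₄))) * b₄ := by
      simp only [mul_assoc]
    rw [h5, h0]; simp
  have h3 : ∀ u ∈ {z | ∃ j, T.dim j ≤ w ∧ ∃ a ∈ T.CH j x (T.dim j), ∃ b ∈ T.CH x j (T.dim x),
      a * b = z}, ∀ v ∈ {z | ∃ j, T.dim j ≤ 1 ∧ ∃ a ∈ T.CH j x (T.dim j),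
      ∃ b ∈ T.CH x j (T.dim x), a * b = z}, ∀ u' ∈ {z | ∃ j, T.dim j ≤ w ∧
      ∃ a ∈ T.CH j x (T.dim j), ∃ b ∈ T.CH x j (T.dim x), a * b = z},
      u * g * v * (u' * g' * v') = 0 := fun u hu v hv u' hu' =>
    eq_zero_of_span ((AddMonoidHom.mulLeft (u * g * v)).comp
      (AddMonoidHom.mulLeft (u' * g'))) (h4 u hu v hv u' hu') _ hv'
  have h2 : ∀ u ∈ {z | ∃ j, T.dim j ≤ w ∧ ∃ a ∈ T.CH j x (T.dim j), ∃ b ∈ T.CH x j (T.dim x),
      a * b = z}, ∀ v ∈ {z | ∃ j, T.dim j ≤ 1 ∧ ∃ a ∈ T.CH j x (T.dim j),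
      ∃ b ∈ T.CH x j (T.dim x), a * b = z},
      u * g * v * (u' * g' * v') = 0 := fun u hu v hv =>
    eq_zero_of_span ((AddMonoidHom.mulLeft (u * g * v)).comp
      ((AddMonoidHom.mulRight v').comp (AddMonoidHom.mulRight g')))
      (h3 u hu v hv) _ hu'
  have h1 : ∀ u ∈ {z | ∃ j, T.dim j ≤ w ∧ ∃ a ∈ T.CH j x (T.dim j), ∃ b ∈ T.CH x j (T.dim x),
      a * b = z}, u * g * v * (u' * g' * v') = 0 := fun u hu =>
    eq_zero_of_span ((AddMonoidHom.mulRight (u' * g' * v')).comp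
      (AddMonoidHom.mulLeft (u * g))) (h2 u hu) _ hv
  exact eq_zero_of_span ((AddMonoidHom.mulRight (u' * g' * v')).comp
    ((AddMonoidHom.mulRight v).comp (AddMonoidHom.mulRight g))) h1 _ hu

/-! ### transfer to the single variety -/

/-- the ideal of correspondences factoring through varieties of dimension at most `w` -/
def J (x : T.ι) (w : ℕ) : Set (toCorr x).A := {a : T.A x | val a ∈ T.Through x w}

theorem isIdeal_J (x : T.ι) (w : ℕ) : IsIdeal (J x w) where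
  zero := (T.Through x w).zero_mem
  add a ha b hb := (T.Through x w).add_mem ha hb
  mul g a ha h := by
    change val (T := T) (x := x) (g * a * h) ∈ T.Through x w
    exact through_mul (val_mem (T := T) (x := x) h) (mul_through (val_mem (T := T) (x := x) g) ha)

theorem J_mono (x : T.ι) {w w' : ℕ} (h : w ≤ w') : J x w ⊆ J x w' := by
  intro a ha
  refine Submodule.span_mono ?_ ha
  rintro z ⟨j, hj, r⟩
  exact ⟨j, hj.trans h, r⟩

theorem R_val {x : T.ι} {a : T.A x} (h : RB x a = 0) : T.R (val a) = 0 := by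
  have := congrArg vh h
  rwa [vh_RB, vh_zero] at this

/-- The conclusion in terms of the ring `C`. -/
theorem of_toCorr {x : T.ι} {w : ℕ} (h : ∃ P, (toCorr x).IsSelfDualCK P ∧
    ∀ i, P (Corr.low i) ∈ J x w) :
    ∃ P, T.IsSelfDualCK x P ∧ ∀ k : Fin (T.dim x), P (low T k) ∈ T.Through x w := by
  obtain ⟨P, ⟨⟨hP, hR⟩, hs⟩, hJ⟩ := h
  refine ⟨fun k => val (T := T) (x := x) (P k), ⟨⟨fun k => val_mem (T := T) (x := x) (P k),
    ⟨fun k => ?_, fun k l hkl => ?_⟩, ?_, fun k => ?_⟩, fun k => ?_⟩, fun k => ?_⟩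
  · have h1 : P k * P k = P k := (hP.idem k).eq
    exact congrArg (val (T := T) (x := x)) h1
  · have h1 : P k * P l = 0 := hP.ortho hkl
    exact congrArg (val (T := T) (x := x)) h1
  · have h1 : ∑ k, P k = 1 := hP.complete
    have h2 := congrArg (val (T := T) (x := x)) h1
    exact (val_sum _).symm.trans h2
  · exact congrArg (vh (T := T) (x := x)) (hR k)
  · exact congrArg (val (T := T) (x := x)) (hs k)
  · exact hJ k

/-- Polynomials without constant term. -/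
theorem val_aeval (a : T.A x) (f : Polynomial ℚ) :
    val (Polynomial.aeval a (Polynomial.X * f)) = val a * Polynomial.aeval (val a) f := by
  induction f using Polynomial.induction_on' with
  | add p q hp hq =>
    rw [mul_add, map_add, val_add, hp, hq, map_add, mul_add]
  | monomial n q =>
    have h1 : ∀ n : ℕ, val (a * a ^ n) = val a * val a ^ n := by
      intro n
      induction n with
      | zero => rw [pow_zero, pow_zero, mul_one, mul_one]
      | succ n ih => rw [pow_succ, ← mul_assoc, val_mul, ih, pow_succ, mul_assoc]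
    rw [map_mul, Polynomial.aeval_X, Polynomial.aeval_monomial, Polynomial.aeval_monomial,
      ← Algebra.smul_def, ← Algebra.smul_def, mul_smul_comm, val_smul, h1, mul_smul_comm]

theorem isAlgebraic_of_val {a : T.A x} (h : IsAlgebraic ℚ (val a)) : IsAlgebraic ℚ a := by
  obtain ⟨f, hf, h0⟩ := h
  refine ⟨Polynomial.X * f, mul_ne_zero Polynomial.X_ne_zero hf, val_inj ?_⟩
  rw [val_aeval, h0, mul_zero, val_zero]

/-- (A) Orthogonal lifts in the ideal. -/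
theorem selfDual_of_lower (x : T.ι) (w : ℕ) (hw : 2 * w ≤ T.dim x + 1)
    (p : Fin (T.dim x) → T.C) (hpm : ∀ k, p k ∈ T.CH x x (T.dim x))
    (hp : OrthogonalIdempotents p) (hR : ∀ k, T.R (p k) = T.π x (low T k))
    (hJ : ∑ k, p k ∈ T.Through x w) :
    ∃ P, T.IsSelfDualCK x P ∧ ∀ k : Fin (T.dim x), P (low T k) ∈ T.Through x w := by
  refine of_toCorr ((toCorr x).selfDual_of_ideal (isIdeal_J x w) ?_
    (p := fun k => mk' (p k) (hpm k)) ⟨⟨fun k => ?_, fun k l hkl => ?_⟩, fun k => ?_⟩ ?_)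
  · intro u hu g hg
    exact val_inj (T := T) (x := x) (star_mul_mul_eq_zero hw (val_mem (T := T) (x := x) g)
      (R_val hg) (val_mem (T := T) (x := x) g) (R_val hg) hu hu hu hu)
  · exact val_inj (T := T) (x := x) (hp.idem k)
  · exact val_inj (T := T) (x := x) (hp.ortho hkl)
  · exact vh_inj (T := T) (x := x) (hR k)
  · change val (T := T) (x := x) (∑ k, mk' (p k) (hpm k)) ∈ T.Through x w
    rw [val_sum]
    exact hJ

/-- (B) Lifts that need not be orthogonal. -/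
theorem selfDual_of_lifts (x : T.ι) (w : ℕ) (hw1 : 1 ≤ w) (hw : 2 * w ≤ T.dim x + 1)
    (hc : ∀ k : Fin (T.dim x), T.HasLift x (if (k : ℕ) + 1 < T.dim x then 1 else w) k) :
    ∃ P, T.IsSelfDualCK x P ∧ ∀ k : Fin (T.dim x), P (low T k) ∈ T.Through x w := by
  refine of_toCorr ((toCorr x).selfDual_of_lifts (isIdeal_J x 1) (isIdeal_J x w) (J_mono x hw1)
    ?_ ?_ ?_)
  · intro u hu g hg
    exact val_inj (T := T) (x := x) (star_mul_mul_eq_zero hw (val_mem (T := T) (x := x) g)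
      (R_val hg) (val_mem (T := T) (x := x) g) (R_val hg) hu hu hu hu)
  · intro u hu v hv g hg
    exact val_inj (T := T) (x := x) (mul_mul_mul_eq_zero (val_mem (T := T) (x := x) g)
      (R_val hg) (val_mem (T := T) (x := x) g) (R_val hg) hu hv hu hv)
  · intro k
    obtain ⟨c, hc1, hc2, hc3⟩ := hc k
    have hm : c ∈ T.CH x x (T.dim x) := through_le hc1
    refine ⟨mk' c hm, ?_, fun h => ?_, isAlgebraic_of_val hc2, vh_inj (T := T) (x := x) hc3⟩
    · by_cases h : (k : ℕ) + 1 < T.dim x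
      · rw [if_pos h] at hc1
        exact J_mono x hw1 hc1
      · rw [if_neg h] at hc1
        exact hc1
    · rw [if_pos h] at hc1
      exact hc1

/-- The equivalent conditions. -/
theorem criterion (x : T.ι) (w : ℕ) (hw : 2 * w ≤ T.dim x + 1) :
    List.TFAE [
      (∃ P, T.IsSelfDualCK x P ∧ ∀ k : Fin (T.dim x), P (low T k) ∈ T.Through x w),
      (∃ p, T.IsCK x p ∧ ∀ k : Fin (T.dim x), p (low T k) ∈ T.Through x w),
      (∃ p : Fin (T.dim x) → T.C, OrthogonalIdempotents p ∧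
        ∀ k, p k ∈ T.Through x w ∧ T.R (p k) = T.π x (low T k))] ∧
    (1 ≤ w → (∀ k : Fin (T.dim x), (k : ℕ) + 1 < T.dim x → T.HasLift x 1 k) →
      ((∃ P, T.IsSelfDualCK x P ∧ ∀ k : Fin (T.dim x), P (low T k) ∈ T.Through x w) ↔
        ∀ k : Fin (T.dim x), (k : ℕ) + 1 = T.dim x → T.HasLift x w k)) := by
  refine ⟨?_, fun hw1 h1 => ⟨?_, fun h2 => ?_⟩⟩
  · tfae_have 1 → 2 := by
      rintro ⟨P, hP, h⟩
      exact ⟨P, hP.1, h⟩
    tfae_have 2 → 3 := by
      rintro ⟨p, ⟨-, hp, -, hR⟩, h⟩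
      refine ⟨fun k => p (low T k), ⟨fun k => hp.idem _, fun k l hkl => hp.ortho fun h' => ?_⟩,
        fun k => ⟨h k, hR _⟩⟩
      apply hkl
      have h3 := congrArg Fin.val h'
      exact Fin.ext h3
    tfae_have 3 → 1 := by
      rintro ⟨p, hp, h⟩
      exact selfDual_of_lower x w hw p (fun k => through_le (h k).1) hp (fun k => (h k).2)
        (Submodule.sum_mem _ fun k _ => (h k).1)
    tfae_finish
  · rintro ⟨P, hP, h⟩ k -
    refine ⟨P (low T k), h k, ?_, hP.1.2.2.2 _⟩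
    have hi : P (low T k) * P (low T k) = P (low T k) := (hP.1.2.1.idem _).eq
    refine ⟨Polynomial.X * (Polynomial.X - 1), ?_, ?_⟩
    · exact mul_ne_zero Polynomial.X_ne_zero (Polynomial.X_sub_C_ne_zero (1 : ℚ))
    · simp [mul_sub, hi]
  · refine selfDual_of_lifts x w hw1 hw fun k => ?_
    by_cases h : (k : ℕ) + 1 < T.dim x
    · rw [if_pos h]
      exact h1 k h
    · rw [if_neg h]
      exact h2 k (by have := k.2; omega)

end Cycles

end SDCK
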